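import Pool.Agent.H466.HP.Stm4

/-!
# Local count of the zeros of the heat flow (subtask HP-CNT of helper466)
-/

set_option autoImplicit false

open Complex MeasureTheory Filter Topology Set
open scoped ComplexConjugate

namespace Pool.Agent.H271.HP

open Pool.Agent.H466.HP Pool.Agent.H466.HF Pool.Agent.H466.LD
open Pool.Agent.H862.VK (Yz)

lemma LL_fe (lam : ℝ) (z : ℂ) : LL gk lam (-conj z) = conj (LL gk lam z) := by
  unfold LL
  rw [← integral_conj,
    ← integral_neg_eq_self (fun u : ℝ => conj (gk u * cexp ((lam : ℂ) * (u : ℂ) ^ 2 + z * u)))]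
  refine integral_congr_ae (Eventually.of_forall fun u => ?_)
  simp only [gk]
  rw [map_mul, conj_ofReal, Pool.Agent.Helper242.KK.Ph_even, ← Complex.exp_conj]
  congr 2
  simp

lemma far_of_loc {Q : ℂ → ℂ} {t ℓ Γ K μ0 : ℝ} (C : Loc (LL gk 0) Q t ℓ Γ K μ0) :
    Far t ℓ Γ K μ0 := by
  refine ⟨C.Γpos, C.K1, C.μpos, C.up, fun z hz => ?_, fun z hz => ?_, C.low⟩
  · apply Yz_ne_of
    rw [← norm_pos_iff]
    refine lt_of_lt_of_le ?_ (C.low z hz)
    have := C.Γpos
    positivity
  · have hne : LL gk 0 z ≠ 0 := by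
      rw [← norm_pos_iff]
      refine lt_of_lt_of_le ?_ (C.low z hz)
      have := C.Γpos
      positivity
    rw [P_of_der hne (C.der z hz)]
    exact C.dP z hz

lemma exp_two_le : Real.exp 2 ≤ 20 := by
  have h : Real.exp 2 = Real.exp 1 * Real.exp 1 := by rw [← Real.exp_add]; norm_num
  have h1 := Real.exp_one_lt_d9
  have h2 := Real.exp_pos 1
  rw [h]
  nlinarith

theorem data4 : ∃ A K μ0 T0 : ℝ, 46 ≤ K ∧ 0 ≤ μ0 ∧ 10 ≤ T0 ∧ Kern gk A 1 ∧
    ∀ T t : ℝ, T0 ≤ T → T / 2 ≤ t → t ≤ 4 * T →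
      Far t (Real.log T / 2) ‖gz ((t : ℂ) * I)‖ K μ0 := by
  obtain ⟨A, K, μ0, Q, T0, hK, hμ0, hT0, k, hL⟩ := far_data
  refine ⟨A, K + 1 * (1 + μ0), μ0, 2 * T0, by linarith, hμ0, by linarith, k, ?_⟩
  intro T t hT h1 h2
  have htp : 0 < t := by linarith
  have hTp : 0 < T := by linarith
  obtain ⟨C, -⟩ := hL t t (by linarith) le_rfl (by linarith)
  have hl2 := Real.log_two_lt_d9
  have e1 : Real.log (T / 2) ≤ Real.log t := Real.log_le_log (by linarith) h1
  have e2 : Real.log t ≤ Real.log (4 * T) := Real.log_le_log htp h2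
  rw [Real.log_div hTp.ne' (by norm_num)] at e1
  rw [Real.log_mul (by norm_num) hTp.ne'] at e2
  have e4 : Real.log 4 = 2 * Real.log 2 := by
    rw [show (4 : ℝ) = 2 ^ 2 by norm_num, Real.log_pow]
    norm_num
  rw [e4] at e2
  have hℓ : 1 ≤ Real.log T / 2 := by
    have : 2 ≤ Real.log T := by
      rw [Real.le_log_iff_exp_le hTp]
      linarith [exp_two_le]
    linarith
  refine far_of_loc (Loc.shift C (c := 1) (by norm_num) ?_ hℓ)
  rw [abs_le]
  constructor <;> linarith

lemma logq {Γ a b : ℝ} (hΓ : 0 < Γ) :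
    Real.log (Γ * Real.exp a / (Γ * Real.exp b / 2)) = Real.log 2 + (a - b) := by
  have h1 : Γ * Real.exp a / (Γ * Real.exp b / 2) = 2 * Real.exp (a - b) := by
    have hb := (Real.exp_pos b).ne'
    have hG := hΓ.ne'
    rw [Real.exp_sub]
    field_simp
  rw [h1, Real.log_mul (by norm_num) (Real.exp_pos _).ne', Real.log_exp]

lemma fin_ineq {K δ L X1 y0 lam κ eB eb : ℝ} (hK0 : 0 < K) (hLp : 0 < L) (hy0p : 0 < y0)
    (hlam : 0 < lam) (hδ : 0 < δ) (h64 : lam * L ≤ 64 * y0) (hd : lam * L ≤ δ) (hκ1 : κ ≤ 1 / 64)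
    (hX : 0 ≤ X1) (hyL : 15 ≤ y0 * L)
    (heB : eB = (L / 2 + L / 64) * (380 * y0) + 3 * (L / 64) * (348 * y0) +
      (L / 64 * X1 + 2 * (y0 * L)) + 4 * K +
      lam * (L / 2 + L / 64) ^ 2 + 8 * (4 * K) * (lam * (L / 2 + L / 64)) ^ 2 + 2)
    (heb : eb = L / 2 * X1 - κ * L * (2 * y0) - lam * L ^ 2) :
    Real.log 2 + (eB - eb) ≤ (400 + 4 * K + 32 * K * δ ^ 2) * (y0 * L) := by
  have hl2 := Real.log_two_lt_d9
  have hyp : 0 < y0 * L := by positivity
  have a1 : lam * L ^ 2 ≤ 64 * (y0 * L) := by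
    have := mul_le_mul_of_nonneg_right h64 hLp.le
    calc lam * L ^ 2 = lam * L * L := by ring
      _ ≤ 64 * y0 * L := this
      _ = _ := by ring
  have a2 : κ * L * (2 * y0) ≤ 1 / 64 * L * (2 * y0) := by gcongr
  have a3 : 8 * (4 * K) * (lam * (L / 2 + L / 64)) ^ 2 ≤ 32 * K * δ ^ 2 := by
    have hlL : 0 < lam * L := by positivity
    have h1 : lam * (L / 2 + L / 64) ≤ δ := by
      have e : lam * (L / 2 + L / 64) = 33 / 64 * (lam * L) := by ring
      rw [e]
      linarith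
    have h2 : (lam * (L / 2 + L / 64)) ^ 2 ≤ δ ^ 2 := pow_le_pow_left₀ (by positivity) h1 2
    have h3 := mul_le_mul_of_nonneg_left h2 (show 0 ≤ 32 * K by positivity)
    linarith
  have a4 : 0 ≤ L * X1 := by positivity
  have a5 : (4 * K + 32 * K * δ ^ 2) * 1 ≤ (4 * K + 32 * K * δ ^ 2) * (y0 * L) :=
    mul_le_mul_of_nonneg_left (by linarith) (by positivity)
  have a6 : lam * (L / 2 + L / 64) ^ 2 = (33 / 64) ^ 2 * (lam * L ^ 2) := by ring
  have e1 : (L / 2 + L / 64) * (380 * y0) = 33 * 380 / 64 * (y0 * L) := by ring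
  have e2 : 3 * (L / 64) * (348 * y0) = 3 * 348 / 64 * (y0 * L) := by ring
  have e3 : L / 64 * X1 = 1 / 64 * (L * X1) := by ring
  have e4 : L / 2 * X1 = 1 / 2 * (L * X1) := by ring
  have e5 : 1 / 64 * L * (2 * y0) = 1 / 32 * (y0 * L) := by ring
  have e6 : (400 + 4 * K + 32 * K * δ ^ 2) * (y0 * L) =
    400 * (y0 * L) + (4 * K + 32 * K * δ ^ 2) * (y0 * L) := by ring
  rw [heB, heb, a6, e1, e2, e3, e4, e6]
  rw [e5] at a2
  norm_num at a1 a2 a3 a4 a5 ⊢
  linarith

lemma low_aux {Γ a b c d f g : ℝ} (h1 : Γ * Real.exp a ≤ f * Real.exp b)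
    (e1 : a + c = d) (e2 : b + c = g) : Γ * Real.exp d ≤ f * Real.exp g := by
  have h3 := mul_le_mul_of_nonneg_right h1 (Real.exp_pos c).le
  have q1 : Γ * Real.exp a * Real.exp c = Γ * Real.exp d := by
    rw [mul_assoc, ← Real.exp_add, e1]
  have q2 : f * Real.exp b * Real.exp c = f * Real.exp g := by
    rw [mul_assoc, ← Real.exp_add, e2]
  rw [q1, q2] at h3
  exact h3

theorem cnt (h : S_LOW) : S_CNT := by
  intro δ hδ
  obtain ⟨κ, T1, hκ, hκ1, hT1, hlow⟩ := h δ (1 / 64) hδ (by norm_num)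
  obtain ⟨A, K, μ0, T2, hK, hμ, hT2, k, hfar⟩ := data4
  have hK0 : 0 < K := by linarith
  refine ⟨κ, 400 + 4 * K + 32 * K * δ ^ 2, 1000, max T1 (max T2 (Real.exp (32 * K * δ))), hκ,
    by positivity, by norm_num, hT1.trans (le_max_left _ _), ?_⟩
  intro T t y0 lam hT htT ht4 hy01 hR hlam hA hd h64 S hS
  have hTT1 : T1 ≤ T := (le_max_left _ _).trans hT
  have hTT2 : T2 ≤ T := ((le_max_left _ _).trans (le_max_right _ _)).trans hT
  have hTe : Real.exp (32 * K * δ) ≤ T := ((le_max_right _ _).trans (le_max_right _ _)).trans hT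
  have hT10 : 10 ≤ T := hT1.trans hTT1
  have D := hfar T t hTT2 htT ht4
  set L := Real.log T with hL
  have hLp : 0 < L := by rw [hL]; exact Real.log_pos (by linarith)
  have hLK : 32 * K * δ ≤ L := by
    rw [hL, Real.le_log_iff_exp_le (by linarith)]
    exact hTe
  have hlL : 0 < lam * L := by positivity
  have hy0p : 0 < y0 := by linarith
  have hyL : 15 ≤ y0 * L := by
    have h1 : lam * L * L ≤ 64 * y0 * L := mul_le_mul_of_nonneg_right h64 hLp.le
    nlinarith
  have h32 : 32 * K * lam ≤ 1 := by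
    have h1 : 32 * K * lam * L ≤ 1 * L := by
      have e : 32 * K * lam * L = 32 * K * (lam * L) := by ring
      rw [e, one_mul]
      exact (mul_le_mul_of_nonneg_left hd (by positivity)).trans hLK
    exact le_of_mul_le_mul_right h1 hLp
  -- the centre
  set c : ℂ := ((32 * y0 : ℝ) : ℂ) + (t : ℂ) * I with hc
  have hcre : c.re = 32 * y0 := by rw [hc]; simp
  have hcim : c.im = t := by rw [hc]; simp
  obtain ⟨hne, z0, hz0, hz0'⟩ := hlow T t y0 lam hTT1 htT ht4 hy0p hR hlam hA hd c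
    (by rw [hcre, ← hL]; linarith) (by rw [hcre]; linarith)
    (by rw [hcim, hcre, sub_self, abs_zero]; positivity) (by rw [hcre]; linarith)
  rw [← hL] at hz0 hz0'
  have hzre : |z0.re - (32 * y0 + lam * L)| ≤ lam * L / 32 := by
    have h1 := (abs_re_le_norm _).trans hz0
    rw [sub_re, sub_re, hcre, ofReal_re] at h1
    have e : z0.re - (32 * y0 + lam * L) = z0.re - 32 * y0 - lam * L := by ring
    rw [e]
    linarith
  have hzim : |z0.im - t| ≤ lam * L / 32 := by
    have h1 := (abs_im_le_norm _).trans hz0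
    rw [sub_im, sub_im, hcim, ofReal_im, sub_zero] at h1
    linarith
  obtain ⟨hz1, hz2⟩ := abs_le.1 hzre
  have hX32 : 32 * y0 ≤ z0.re := by linarith
  have hX160 : z0.re ≤ 160 * y0 := by linarith
  have hzim2 : |z0.im - t| ≤ 2 * y0 := by linarith
  -- vertical transport
  have hv := ver (X := z0.re) (ℓ := L / 2) (C := κ * L) (a := z0.im) (b := t) (by
    intro v hv
    have h1 : |v - t| ≤ 2 * y0 := by
      have h2 := Set.abs_sub_left_of_mem_uIcc (a := t) (b := z0.im) (by rwa [uIcc_comm])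
      exact h2.trans hzim2
    have hmem : (z0.re : ℂ) + (v : ℂ) * I ∈ Kt t y0 4 64 := by
      refine ⟨?_, ?_, ?_⟩
      · simp; linarith
      · simp; linarith
      · simp; linarith
    exact ⟨cone_ne hy0p (by norm_num) hR.1 hmem, hR.2 _ hmem⟩)
  rw [re_add_im] at hv
  have hmemt : (z0.re : ℂ) + (t : ℂ) * I ∈ Kt t y0 4 64 := by
    refine ⟨?_, ?_, ?_⟩
    · simp; linarith
    · simp; linarith
    · simp; linarith
  have hFp : 0 < ‖LL gk 0 ((z0.re : ℂ) + (t : ℂ) * I)‖ :=
    norm_pos_iff.2 (F_ne (cone_ne hy0p (by norm_num) hR.1 hmemt))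
  set X1 := z0.re with hX1
  set Γ : ℝ := ‖LL gk 0 ((X1 : ℂ) + (t : ℂ) * I)‖ * Real.exp (-(L / 2 * X1)) with hΓ
  have hΓp : 0 < Γ := by positivity
  have hbase : ‖LL gk 0 ((X1 : ℂ) + (t : ℂ) * I)‖ = Γ * Real.exp (L / 2 * X1) := by
    rw [hΓ, mul_assoc, ← Real.exp_add, neg_add_cancel, Real.exp_zero, mul_one]
  have hyy : y0 * L / L = y0 := by field_simp
  have RR : Rg T t (y0 * L) 64 (1 / 64) := by
    refine ⟨by rw [← hL, hyy]; exact hR.1, fun z hz => ?_⟩
    rw [← hL, hyy] at hz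
    exact (hR.2 z hz).trans (mul_le_mul_of_nonneg_right hκ1 hLp.le)
  set E : ℝ := L / 64 * X1 + 2 * (y0 * L) with hE
  have U : UB t (L / 2) (L / 64) E Γ K := by
    refine ⟨hΓp, by positivity, by positivity, hK0.le, fun x v hx hv => ?_⟩
    have h1 := ustar mono (X1 := X1) hT10 (by positivity) (by rw [← hL, hyy]; linarith)
      (M := 64) (κ := 1 / 64) (by norm_num) (by norm_num) (by norm_num) (by norm_num) RR D
      (by rw [← hL, hyy]; linarith) (by linarith) hx hv
    rw [← hL, hbase, mul_assoc, ← Real.exp_add] at h1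
    refine h1.trans (le_of_eq ?_)
    congr 2
    rw [hE]
    ring
  -- the zeros are close to the centre
  have hclose : ∀ u ∈ S, ‖u - c‖ ≤ 128 * y0 ∧ 0 < ‖u - c‖ := by
    intro u hu
    obtain ⟨hu0, hui⟩ := hS u hu
    have hus := strip lam u hlam hu0
    have hure : |u.re| < 32 * y0 := by
      by_contra hcon
      push Not at hcon
      obtain ⟨w, hw0, hwre, hwim⟩ : ∃ w : ℂ, LL gk lam w = 0 ∧ w.re = |u.re| ∧ w.im = u.im := by
        rcases le_or_gt 0 u.re with h1 | h1
        · exact ⟨u, hu0, (abs_of_nonneg h1).symm, rfl⟩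
        · refine ⟨-conj u, ?_, ?_, ?_⟩
          · rw [LL_fe, hu0, map_zero]
          · rw [abs_of_neg h1]; simp
          · simp
      refine (hlow T t y0 lam hTT1 htT ht4 hy0p hR hlam hA hd w ?_ ?_ ?_ ?_).1 hw0
      · rw [hwre, ← hL]
        have := mul_le_mul_of_nonneg_right hcon hLp.le
        linarith
      · rw [hwre]; exact hus
      · rw [hwre, hwim, ← hL]
        linarith [abs_nonneg u.re]
      · rw [hwre, ← hL]
        linarith
    constructor
    · refine (norm_le_abs_re_add_abs_im _).trans ?_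
      rw [sub_re, sub_im, hcre, hcim]
      have h1 : |u.re - 32 * y0| ≤ |u.re| + |32 * y0| := abs_sub _ _
      rw [abs_of_pos (show 0 < 32 * y0 by positivity)] at h1
      linarith
    · rw [norm_pos_iff, sub_ne_zero]
      intro h1
      exact hne (h1 ▸ hu0)
  -- the disc
  have he1 := Real.exp_one_lt_d9
  have he0 := Real.exp_pos 1
  set R : ℝ := 128 * Real.exp 1 * y0 with hRdef
  have hRp : 0 < R := by positivity
  have hR348 : R ≤ 348 * y0 := by
    rw [hRdef]
    apply mul_le_mul_of_nonneg_right _ hy0p.le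
    linarith
  have hFd : Differentiable ℂ (LL gk lam) := k.differentiable lam
  set eB : ℝ := (L / 2 + L / 64) * (380 * y0) + 3 * (L / 64) * (348 * y0) + E + 4 * K +
    lam * (L / 2 + L / 64) ^ 2 + 8 * (4 * K) * (lam * (L / 2 + L / 64)) ^ 2 + 2 with heB
  set eb : ℝ := L / 2 * X1 - κ * L * (2 * y0) - lam * L ^ 2 with heb
  have hjen := jen_weight hFd (C := c) (R := R) (B := Γ * Real.exp eB) (b := Γ * Real.exp eb / 2)
    (ℒ := 0) hRp (by positivity) le_rfl (by
      intro z hz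
      have hzre' := (abs_re_le_norm z).trans (hz.trans hR348)
      have hzim' := (abs_im_le_norm z).trans (hz.trans hR348)
      have e : c + z = ((32 * y0 + z.re : ℝ) : ℂ) + ((t + z.im : ℝ) : ℂ) * I := by
        apply Complex.ext
        · rw [add_re, hcre]; simp
        · rw [add_im, hcim]; simp
      rw [e, zero_mul, Real.exp_zero, mul_one]
      have h1 := U.heat k hlam h32 (32 * y0 + z.re) z.im (by linarith)
      refine h1.trans (mul_le_mul_of_nonneg_left (Real.exp_le_exp.mpr ?_) hΓp.le)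
      have h2 : |32 * y0 + z.re| ≤ 380 * y0 := by
        refine (abs_add_le _ _).trans ?_
        rw [abs_of_pos (by positivity)]
        linarith
      have h3 : (L / 2 + L / 64) * |32 * y0 + z.re| ≤ (L / 2 + L / 64) * (380 * y0) :=
        mul_le_mul_of_nonneg_left h2 (by positivity)
      have h4 : 3 * (L / 64) * |z.im| ≤ 3 * (L / 64) * (348 * y0) :=
        mul_le_mul_of_nonneg_left hzim' (by positivity)
      have h5 : (32 * y0 + z.re) ^ 2 ≤ 1 := by
        rw [← sq_abs]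
        exact pow_le_one₀ (abs_nonneg _) (by linarith)
      have h6 : 4 * K * (32 * y0 + z.re) ^ 2 ≤ 4 * K * 1 :=
        mul_le_mul_of_nonneg_left h5 (by positivity)
      rw [heB]
      linarith) (by
      have h1 : Γ * Real.exp (L / 2 * X1) ≤ ‖LL gk 0 z0‖ * Real.exp (κ * L * (2 * y0)) := by
        rw [← hbase]
        refine hv.trans (mul_le_mul_of_nonneg_left (Real.exp_le_exp.mpr ?_) (norm_nonneg _))
        apply mul_le_mul_of_nonneg_left _ (by positivity)
        rw [abs_sub_comm]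
        exact hzim2
      have h2 : Γ * Real.exp eb ≤ ‖LL gk 0 z0‖ * Real.exp (-(lam * L ^ 2)) :=
        low_aux h1 (c := -(κ * L * (2 * y0)) + -(lam * L ^ 2)) (by rw [heb]; ring) (by ring)
      linarith) S (fun _ => 1) (fun u hu => (hS u hu).1)
    (fun u hu _ => ?_) (fun u hu h => ?_)
  · simp only [mul_one, mul_zero, add_zero] at hjen
    refine hjen.trans ?_
    rw [logq hΓp]
    exact fin_ineq hK0 hLp hy0p hlam hδ h64 hd hκ1 (by linarith) hyL (by rw [heB, hE]) heb
  · obtain ⟨h1, h2⟩ := hclose u hu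
    rw [Real.le_log_iff_exp_le (by positivity), le_div_iff₀ h2, hRdef]
    have := mul_le_mul_of_nonneg_left h1 he0.le
    linarith
  · exfalso
    obtain ⟨h1, h2⟩ := hclose u hu
    have h3 : 1 ≤ Real.exp 1 := Real.one_le_exp (by norm_num)
    have h4 : 128 * y0 ≤ R := by
      rw [hRdef]
      have := mul_le_mul_of_nonneg_right h3 (show 0 ≤ 128 * y0 by positivity)
      linarith
    linarith

end Pool.Agent.H271.HP
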